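import Pool.Agent.Helper3.FewP.Goals3

/-!
# FewPoints (MP_d3128a_ag), packet STRIP-CHI
-/

set_option autoImplicit false

namespace Pool.Agent.Helper35.FewP.CHI

open Pool.Agent.Helper3.FewP

theorem sent_mul (k r : ℕ) (a : ℂ) (h h' : ℤ → ℤ → ℂ)
    (H : ∀ s : ℤ, h s (r + k * s) = a * h' s (r + k * s)) :
    sent k r h = PowerSeries.C a * sent k r h' := by
  ext e
  rw [PowerSeries.coeff_C_mul]
  unfold sent
  rw [PowerSeries.coeff_mk, PowerSeries.coeff_mk, Finset.mul_sum]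
  refine Finset.sum_congr rfl fun s _ => ?_
  split_ifs
  · exact H s
  · rw [mul_zero]

theorem thz_mul (k : ℕ) (χ κ t z : ℂ) (a j r : ℕ) (hκ : κ ≠ 0) (hk : κ ^ k = χ) :
    thz k (1 * t ^ j) (κ * z) a r = (HahnSeries.C (κ ^ r) : EE) * thz k (χ * t ^ j) z a r := by
  unfold thz
  rw [← HahnSeries.ofPowerSeries_C, ← map_mul]
  congr 1
  apply sent_mul
  intro s
  have h1 : κ ^ ((r : ℤ) + (k : ℤ) * s) = κ ^ r * χ ^ s := by
    rw [zpow_add₀ hκ, zpow_natCast, zpow_mul, zpow_natCast, hk]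
  rw [one_mul, mul_zpow κ z, h1, mul_zpow χ]
  ring

theorem t : G_CHI := by
  intro k m χ κ t z j r hκ hk
  funext ab
  rw [Pi.smul_apply, smul_eq_mul]
  unfold vv
  rw [thz_mul k χ κ t z _ j r hκ hk]
  ring

end Pool.Agent.Helper35.FewP.CHI
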