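import Pool.Agent.Helper3.FewP.Goals3

/-!
# FewPoints (MP_d3128a_ag), packet STRIP-I1A
-/

set_option autoImplicit false

namespace Pool.Agent.Helper35.FewP.I1A

open Pool.Agent.Helper3.FewP

theorem finite_zeros (pol : MvPolynomial Unit ℂ) (h : pol ≠ 0) :
    {z : ℂ | MvPolynomial.eval (fun _ => z) pol = 0}.Finite := by
  by_contra hinf
  apply h
  refine MvPolynomial.funext_set (fun _ : Unit => {z : ℂ | MvPolynomial.eval (fun _ => z) pol = 0})
    (fun _ => hinf) ?_
  intro x hx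
  have h1 : MvPolynomial.eval (fun _ => x ()) pol = 0 := hx () (Set.mem_univ _)
  rw [map_zero]
  exact h1

theorem t : G_IND → G_SZ → G_CV1 → G_BK1 → G_FM1 → G_I1A := by
  intro hI hS hC hB hF k P m N s t hk hP hadm ht
  have ht0 : t ≠ 0 := by
    rintro rfl
    exact ht isAlgebraic_zero
  choose s0 i0 h0 using fun c : Fin N × Fin k => hS k P (c.2 : ℕ) ((c.1 : ℕ) : ℤ) hk hP
  have hP0 : (0 : ℤ) < 2 * (P : ℤ) ^ 2 := by positivity
  have hlow : ∀ c, 0 ≤ DD P ((c.1 : ℕ) : ℤ) (((c.2 : ℕ) : ℤ) + k * s0 c) := by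
    intro c
    refine le_trans ?_ (h0 c).1
    positivity
  have hup : ∀ c, DD P ((c.1 : ℕ) : ℤ) (((c.2 : ℕ) : ℤ) + k * s0 c) < 2 * (P : ℤ) ^ 2 * k := by
    intro c
    refine lt_of_lt_of_le (h0 c).2 ?_
    have h1 : (((i0 c : Fin k) : ℕ) : ℤ) + 1 ≤ k := by
      have := (i0 c).isLt
      omega
    exact mul_le_mul_of_nonneg_left h1 hP0.le
  have hblk := hB k P m N s s0 hk hP hadm fun c => ⟨hlow c, hup c⟩
  have htr : Transcendental ℚ (((Units.mk0 t ht0)⁻¹ : ℂˣ) : ℂ) := by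
    intro h
    apply ht
    rw [Units.val_inv_eq_inv_val, Units.val_mk0] at h
    exact IsAlgebraic.inv_iff.1 h
  obtain ⟨pol, hpol, hx⟩ := hI Unit Unit (Mon m) k N m (fun _ => ()) id w1 (ell1 k P)
    (fun _ => 0) (fun _ => ()) s0 (fun i ab => ⟨ab, rfl, rfl⟩)
    (fun i j a b hab => congrFun hab ()) (by
      intro c i s hs
      have hs' : s ≠ s0 c := by
        rcases hs with hs | hs
        · exact absurd rfl hs
        · exact hs
      have h1 := hC k P (c.2 : ℕ) ((c.1 : ℕ) : ℤ) (s0 c) hk hP (hlow c) (hup c) s hs'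
      unfold phi
      simpa [ell1, w1] using h1) (by
      intro i
      exact hblk.comp (fun c : {c : Fin N × Fin k // () = i} => c.1) Subtype.val_injective)
    (Units.mk0 t ht0)⁻¹ htr
  refine ⟨{0} ∪ {z : ℂ | MvPolynomial.eval (fun _ => z) pol = 0},
    (Set.finite_singleton 0).union (finite_zeros pol hpol), ?_⟩
  intro z hz
  have hz0 : z ≠ 0 := fun h => hz (Or.inl h)
  have hz1 : MvPolynomial.eval (fun _ : Unit => z) pol ≠ 0 := fun h => hz (Or.inr h)
  have h2 := hx (fun _ => Units.mk0 z hz0) hz1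
  have h3 : fam k N m (fun _ : Mon m => ()) id w1 (Units.mk0 t ht0)⁻¹
      (fun _ => Units.mk0 z hz0) = fun jr : Fin N × Fin k => vv k m 1 t z jr.1 jr.2 := by
    funext c y
    exact hF k N m (Units.mk0 t ht0) (Units.mk0 z hz0) c y
  rwa [h3] at h2

end Pool.Agent.Helper35.FewP.I1A
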