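import Pool.Agent.Helper3.FewP.Goals3

/-!
# FewPoints (MP_d3128a_ag), packet STRIP-I1B
-/

set_option autoImplicit false

namespace Pool.Agent.Helper35.FewP.I1B

open Pool.Agent.Helper3.FewP

theorem C_ne (κ : ℂ) (hκ : κ ≠ 0) (r : ℕ) : (HahnSeries.C (κ ^ r) : EE) ≠ 0 := by
  intro h
  have h1 := HahnSeries.C_injective (Γ := ℤ) (h.trans (map_zero (HahnSeries.C : ℂ →+* EE)).symm)
  exact pow_ne_zero r hκ h1

theorem t : G_I1B := by
  intro hA hC k P m N s χ t hk hP hadm hχ ht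
  obtain ⟨κ, hκ⟩ := IsAlgClosed.exists_pow_nat_eq χ (show 0 < k by omega)
  have hκ0 : κ ≠ 0 := by
    rintro rfl
    rw [zero_pow (by omega)] at hκ
    exact hχ hκ.symm
  obtain ⟨B, hB, hz⟩ := hA k P m N s t hk hP hadm ht
  refine ⟨(fun z => κ * z) ⁻¹' B, hB.preimage (mul_right_injective₀ hκ0).injOn, ?_⟩
  intro z hzB
  have h1 := hz (κ * z) hzB
  have h2 := h1.units_smul fun jr : Fin N × Fin k =>
    (Units.mk0 (HahnSeries.C (κ ^ (jr.2 : ℕ)) : EE) (C_ne κ hκ0 _))⁻¹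
  have h3 : ((fun jr : Fin N × Fin k =>
      (Units.mk0 (HahnSeries.C (κ ^ (jr.2 : ℕ)) : EE) (C_ne κ hκ0 _))⁻¹) •
      fun jr : Fin N × Fin k => vv k m 1 t (κ * z) jr.1 jr.2) =
      fun jr : Fin N × Fin k => vv k m χ t z jr.1 jr.2 := by
    funext jr
    rw [Pi.smul_apply', hC k m χ κ t z jr.1 jr.2 hκ0 hκ, Units.smul_def, smul_smul,
      Units.val_inv_eq_inv_val, Units.val_mk0, inv_mul_cancel₀ (C_ne κ hκ0 _), one_smul]
  rwa [h3] at h2

end Pool.Agent.Helper35.FewP.I1B
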