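import Pool.Agent.Helper35.FewP.I1B

/-!
# FewPoints (MP_d3128a_ag), packet STRIP-I2B
-/

set_option autoImplicit false

namespace Pool.Agent.Helper35.FewP.I2B

open Pool.Agent.Helper3.FewP Pool.Agent.Helper35.FewP.I1B

theorem t : G_I2B := by
  intro hA hC k u N χ t B hk hu hN hχ ht hB
  obtain ⟨κ, hκ⟩ := IsAlgClosed.exists_pow_nat_eq χ (show 0 < k by omega)
  have hκ0 : κ ≠ 0 := by
    rintro rfl
    rw [zero_pow (by omega)] at hκ
    exact hχ hκ.symm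
  obtain ⟨z, c, hzc, hli⟩ := hA k u N t ((fun z => κ * z) '' B) hk hu hN ht (hB.image _)
  refine ⟨fun i => κ⁻¹ * z i, c, fun i => ⟨fun hi => ?_, ?_, (hzc i).2.2⟩, ?_⟩
  · exact (hzc i).1 ⟨κ⁻¹ * z i, hi, mul_inv_cancel_left₀ hκ0 _⟩
  · exact mul_ne_zero (inv_ne_zero hκ0) (hzc i).2.1
  · have h2 := hli.units_smul fun jr : Fin N × Fin k =>
      (Units.mk0 (HahnSeries.C (κ ^ (jr.2 : ℕ)) : EE) (C_ne κ hκ0 _))⁻¹
    have h3 : ((fun jr : Fin N × Fin k =>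
        (Units.mk0 (HahnSeries.C (κ ^ (jr.2 : ℕ)) : EE) (C_ne κ hκ0 _))⁻¹) •
        fun (jr : Fin N × Fin k) (y : Fin k × Mon u) =>
          HahnSeries.C (c y.1) ^ (jr.1 : ℕ) * vv k u 1 t (z y.1) jr.1 jr.2 y.2) =
        fun (jr : Fin N × Fin k) (y : Fin k × Mon u) =>
          HahnSeries.C (c y.1) ^ (jr.1 : ℕ) * vv k u χ t (κ⁻¹ * z y.1) jr.1 jr.2 y.2 := by
      funext jr y
      have h4 := congrFun (hC k u χ κ t (κ⁻¹ * z y.1) jr.1 jr.2 hκ0 hκ) y.2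
      rw [mul_inv_cancel_left₀ hκ0, Pi.smul_apply, smul_eq_mul] at h4
      rw [Pi.smul_apply', Pi.smul_apply, h4, Units.smul_def, Units.val_inv_eq_inv_val,
        Units.val_mk0, smul_eq_mul, mul_left_comm (HahnSeries.C (c y.1) ^ (jr.1 : ℕ)),
        inv_mul_cancel_left₀ (C_ne κ hκ0 _)]
    rwa [h3] at h2

end Pool.Agent.Helper35.FewP.I2B
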